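import Pool.Agent.Helper7.TB.R00
import Pool.Agent.Helper7.TB.R01
import Pool.Agent.Helper7.TB.R02
import Pool.Agent.Helper7.TB.R03
import Pool.Agent.Helper7.TB.R04
import Pool.Agent.Helper7.TB.R05
import Pool.Agent.Helper7.TB.R06
import Pool.Agent.Helper7.TB.R07
import Pool.Agent.Helper7.TB.R08
import Pool.Agent.Helper7.TB.R09
import Pool.Agent.Helper7.TB.Typ
import Pool.Agent.Helper16.TY.Net
import Pool.Agent.Helper82.TY.PopR

/-!
MP_8ee768_co, project TH-Y', stage TB2: random access to the rows.

`row t` is the row of the type `t`: `nl t` lanes of `330` bits (codes `enc 11 4`), sorted by (class number, code); class numbers in `Cls.lean`.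
-/

set_option autoImplicit false
set_option maxRecDepth 100000

namespace Pool.Agent.Helper7.TB

open Pool.Agent.Helper63.SIMD
open Pool.Agent.Helper82.TY (force force_eq)
open Pool.Agent.Helper16.TY (packL)

/-- pieces of the types `0 ..` -/
noncomputable def rq0 (k t : ℕ) : List ℕ :=
 bif Nat.ble 8 k then
  (bif Nat.ble 12 k then
   (bif Nat.ble 14 k then
    (bif Nat.ble 15 k then
     (rw15 (Nat.land t 15))
    else
     (rw14 (Nat.land t 15)))
   else
    (bif Nat.ble 13 k then
     (rw13 (Nat.land t 15))
    else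
     (rw12 (Nat.land t 15))))
  else
   (bif Nat.ble 10 k then
    (bif Nat.ble 11 k then
     (rw11 (Nat.land t 15))
    else
     (rw10 (Nat.land t 15)))
   else
    (bif Nat.ble 9 k then
     (rw9 (Nat.land t 15))
    else
     (rw8 (Nat.land t 15)))))
 else
  (bif Nat.ble 4 k then
   (bif Nat.ble 6 k then
    (bif Nat.ble 7 k then
     (rw7 (Nat.land t 15))
    else
     (rw6 (Nat.land t 15)))
   else
    (bif Nat.ble 5 k then
     (rw5 (Nat.land t 15))
    else
     (rw4 (Nat.land t 15))))
  else
   (bif Nat.ble 2 k then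
    (bif Nat.ble 3 k then
     (rw3 (Nat.land t 15))
    else
     (rw2 (Nat.land t 15)))
   else
    (bif Nat.ble 1 k then
     (rw1 (Nat.land t 15))
    else
     (rw0 (Nat.land t 15)))))

/-- pieces of the types `256 ..` -/
noncomputable def rq1 (k t : ℕ) : List ℕ :=
 bif Nat.ble 8 k then
  (bif Nat.ble 12 k then
   (bif Nat.ble 14 k then
    (bif Nat.ble 15 k then
     (rw31 (Nat.land t 15))
    else
     (rw30 (Nat.land t 15)))
   else
    (bif Nat.ble 13 k then
     (rw29 (Nat.land t 15))
    else
     (rw28 (Nat.land t 15))))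
  else
   (bif Nat.ble 10 k then
    (bif Nat.ble 11 k then
     (rw27 (Nat.land t 15))
    else
     (rw26 (Nat.land t 15)))
   else
    (bif Nat.ble 9 k then
     (rw25 (Nat.land t 15))
    else
     (rw24 (Nat.land t 15)))))
 else
  (bif Nat.ble 4 k then
   (bif Nat.ble 6 k then
    (bif Nat.ble 7 k then
     (rw23 (Nat.land t 15))
    else
     (rw22 (Nat.land t 15)))
   else
    (bif Nat.ble 5 k then
     (rw21 (Nat.land t 15))
    else
     (rw20 (Nat.land t 15))))
  else
   (bif Nat.ble 2 k then
    (bif Nat.ble 3 k then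
     (rw19 (Nat.land t 15))
    else
     (rw18 (Nat.land t 15)))
   else
    (bif Nat.ble 1 k then
     (rw17 (Nat.land t 15))
    else
     (rw16 (Nat.land t 15)))))

/-- pieces of the types `512 ..` -/
noncomputable def rq2 (k t : ℕ) : List ℕ :=
 bif Nat.ble 8 k then
  (bif Nat.ble 12 k then
   (bif Nat.ble 14 k then
    (bif Nat.ble 15 k then
     (rw47 (Nat.land t 15))
    else
     (rw46 (Nat.land t 15)))
   else
    (bif Nat.ble 13 k then
     (rw45 (Nat.land t 15))
    else
     (rw44 (Nat.land t 15))))
  else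
   (bif Nat.ble 10 k then
    (bif Nat.ble 11 k then
     (rw43 (Nat.land t 15))
    else
     (rw42 (Nat.land t 15)))
   else
    (bif Nat.ble 9 k then
     (rw41 (Nat.land t 15))
    else
     (rw40 (Nat.land t 15)))))
 else
  (bif Nat.ble 4 k then
   (bif Nat.ble 6 k then
    (bif Nat.ble 7 k then
     (rw39 (Nat.land t 15))
    else
     (rw38 (Nat.land t 15)))
   else
    (bif Nat.ble 5 k then
     (rw37 (Nat.land t 15))
    else
     (rw36 (Nat.land t 15))))
  else
   (bif Nat.ble 2 k then
    (bif Nat.ble 3 k then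
     (rw35 (Nat.land t 15))
    else
     (rw34 (Nat.land t 15)))
   else
    (bif Nat.ble 1 k then
     (rw33 (Nat.land t 15))
    else
     (rw32 (Nat.land t 15)))))

/-- pieces of the types `768 ..` -/
noncomputable def rq3 (k t : ℕ) : List ℕ :=
 bif Nat.ble 8 k then
  (bif Nat.ble 12 k then
   (bif Nat.ble 14 k then
    (bif Nat.ble 15 k then
     (rw63 (Nat.land t 15))
    else
     (rw62 (Nat.land t 15)))
   else
    (bif Nat.ble 13 k then
     (rw61 (Nat.land t 15))
    else
     (rw60 (Nat.land t 15))))
  else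
   (bif Nat.ble 10 k then
    (bif Nat.ble 11 k then
     (rw59 (Nat.land t 15))
    else
     (rw58 (Nat.land t 15)))
   else
    (bif Nat.ble 9 k then
     (rw57 (Nat.land t 15))
    else
     (rw56 (Nat.land t 15)))))
 else
  (bif Nat.ble 4 k then
   (bif Nat.ble 6 k then
    (bif Nat.ble 7 k then
     (rw55 (Nat.land t 15))
    else
     (rw54 (Nat.land t 15)))
   else
    (bif Nat.ble 5 k then
     (rw53 (Nat.land t 15))
    else
     (rw52 (Nat.land t 15))))
  else
   (bif Nat.ble 2 k then
    (bif Nat.ble 3 k then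
     (rw51 (Nat.land t 15))
    else
     (rw50 (Nat.land t 15)))
   else
    (bif Nat.ble 1 k then
     (rw49 (Nat.land t 15))
    else
     (rw48 (Nat.land t 15)))))

/-- pieces of the types `1024 ..` -/
noncomputable def rq4 (k t : ℕ) : List ℕ :=
 bif Nat.ble 8 k then
  (bif Nat.ble 12 k then
   (bif Nat.ble 14 k then
    (bif Nat.ble 15 k then
     (rw79 (Nat.land t 15))
    else
     (rw78 (Nat.land t 15)))
   else
    (bif Nat.ble 13 k then
     (rw77 (Nat.land t 15))
    else
     (rw76 (Nat.land t 15))))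
  else
   (bif Nat.ble 10 k then
    (bif Nat.ble 11 k then
     (rw75 (Nat.land t 15))
    else
     (rw74 (Nat.land t 15)))
   else
    (bif Nat.ble 9 k then
     (rw73 (Nat.land t 15))
    else
     (rw72 (Nat.land t 15)))))
 else
  (bif Nat.ble 4 k then
   (bif Nat.ble 6 k then
    (bif Nat.ble 7 k then
     (rw71 (Nat.land t 15))
    else
     (rw70 (Nat.land t 15)))
   else
    (bif Nat.ble 5 k then
     (rw69 (Nat.land t 15))
    else
     (rw68 (Nat.land t 15))))
  else
   (bif Nat.ble 2 k then
    (bif Nat.ble 3 k then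
     (rw67 (Nat.land t 15))
    else
     (rw66 (Nat.land t 15)))
   else
    (bif Nat.ble 1 k then
     (rw65 (Nat.land t 15))
    else
     (rw64 (Nat.land t 15)))))

/-- pieces of the types `1280 ..` -/
noncomputable def rq5 (k t : ℕ) : List ℕ :=
 bif Nat.ble 8 k then
  (bif Nat.ble 12 k then
   (bif Nat.ble 14 k then
    (bif Nat.ble 15 k then
     (rw95 (Nat.land t 15))
    else
     (rw94 (Nat.land t 15)))
   else
    (bif Nat.ble 13 k then
     (rw93 (Nat.land t 15))
    else
     (rw92 (Nat.land t 15))))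
  else
   (bif Nat.ble 10 k then
    (bif Nat.ble 11 k then
     (rw91 (Nat.land t 15))
    else
     (rw90 (Nat.land t 15)))
   else
    (bif Nat.ble 9 k then
     (rw89 (Nat.land t 15))
    else
     (rw88 (Nat.land t 15)))))
 else
  (bif Nat.ble 4 k then
   (bif Nat.ble 6 k then
    (bif Nat.ble 7 k then
     (rw87 (Nat.land t 15))
    else
     (rw86 (Nat.land t 15)))
   else
    (bif Nat.ble 5 k then
     (rw85 (Nat.land t 15))
    else
     (rw84 (Nat.land t 15))))
  else
   (bif Nat.ble 2 k then
    (bif Nat.ble 3 k then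
     (rw83 (Nat.land t 15))
    else
     (rw82 (Nat.land t 15)))
   else
    (bif Nat.ble 1 k then
     (rw81 (Nat.land t 15))
    else
     (rw80 (Nat.land t 15)))))

/-- pieces of the types `1536 ..` -/
noncomputable def rq6 (k t : ℕ) : List ℕ :=
 bif Nat.ble 8 k then
  (bif Nat.ble 12 k then
   (bif Nat.ble 14 k then
    (bif Nat.ble 15 k then
     (rw111 (Nat.land t 15))
    else
     (rw110 (Nat.land t 15)))
   else
    (bif Nat.ble 13 k then
     (rw109 (Nat.land t 15))
    else
     (rw108 (Nat.land t 15))))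
  else
   (bif Nat.ble 10 k then
    (bif Nat.ble 11 k then
     (rw107 (Nat.land t 15))
    else
     (rw106 (Nat.land t 15)))
   else
    (bif Nat.ble 9 k then
     (rw105 (Nat.land t 15))
    else
     (rw104 (Nat.land t 15)))))
 else
  (bif Nat.ble 4 k then
   (bif Nat.ble 6 k then
    (bif Nat.ble 7 k then
     (rw103 (Nat.land t 15))
    else
     (rw102 (Nat.land t 15)))
   else
    (bif Nat.ble 5 k then
     (rw101 (Nat.land t 15))
    else
     (rw100 (Nat.land t 15))))
  else
   (bif Nat.ble 2 k then
    (bif Nat.ble 3 k then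
     (rw99 (Nat.land t 15))
    else
     (rw98 (Nat.land t 15)))
   else
    (bif Nat.ble 1 k then
     (rw97 (Nat.land t 15))
    else
     (rw96 (Nat.land t 15)))))

/-- pieces of the types `1792 ..` -/
noncomputable def rq7 (k t : ℕ) : List ℕ :=
 bif Nat.ble 8 k then
  (bif Nat.ble 12 k then
   (bif Nat.ble 14 k then
    (bif Nat.ble 15 k then
     (rw127 (Nat.land t 15))
    else
     (rw126 (Nat.land t 15)))
   else
    (bif Nat.ble 13 k then
     (rw125 (Nat.land t 15))
    else
     (rw124 (Nat.land t 15))))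
  else
   (bif Nat.ble 10 k then
    (bif Nat.ble 11 k then
     (rw123 (Nat.land t 15))
    else
     (rw122 (Nat.land t 15)))
   else
    (bif Nat.ble 9 k then
     (rw121 (Nat.land t 15))
    else
     (rw120 (Nat.land t 15)))))
 else
  (bif Nat.ble 4 k then
   (bif Nat.ble 6 k then
    (bif Nat.ble 7 k then
     (rw119 (Nat.land t 15))
    else
     (rw118 (Nat.land t 15)))
   else
    (bif Nat.ble 5 k then
     (rw117 (Nat.land t 15))
    else
     (rw116 (Nat.land t 15))))
  else
   (bif Nat.ble 2 k then
    (bif Nat.ble 3 k then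
     (rw115 (Nat.land t 15))
    else
     (rw114 (Nat.land t 15)))
   else
    (bif Nat.ble 1 k then
     (rw113 (Nat.land t 15))
    else
     (rw112 (Nat.land t 15)))))

/-- pieces of the types `2048 ..` -/
noncomputable def rq8 (k t : ℕ) : List ℕ :=
 bif Nat.ble 8 k then
  (bif Nat.ble 12 k then
   (bif Nat.ble 14 k then
    (bif Nat.ble 15 k then
     (rw143 (Nat.land t 15))
    else
     (rw142 (Nat.land t 15)))
   else
    (bif Nat.ble 13 k then
     (rw141 (Nat.land t 15))
    else
     (rw140 (Nat.land t 15))))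
  else
   (bif Nat.ble 10 k then
    (bif Nat.ble 11 k then
     (rw139 (Nat.land t 15))
    else
     (rw138 (Nat.land t 15)))
   else
    (bif Nat.ble 9 k then
     (rw137 (Nat.land t 15))
    else
     (rw136 (Nat.land t 15)))))
 else
  (bif Nat.ble 4 k then
   (bif Nat.ble 6 k then
    (bif Nat.ble 7 k then
     (rw135 (Nat.land t 15))
    else
     (rw134 (Nat.land t 15)))
   else
    (bif Nat.ble 5 k then
     (rw133 (Nat.land t 15))
    else
     (rw132 (Nat.land t 15))))
  else
   (bif Nat.ble 2 k then
    (bif Nat.ble 3 k then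
     (rw131 (Nat.land t 15))
    else
     (rw130 (Nat.land t 15)))
   else
    (bif Nat.ble 1 k then
     (rw129 (Nat.land t 15))
    else
     (rw128 (Nat.land t 15)))))

/-- pieces of the types `2304 ..` -/
noncomputable def rq9 (k t : ℕ) : List ℕ :=
 bif Nat.ble 8 k then
  (bif Nat.ble 12 k then
   (bif Nat.ble 14 k then
    (bif Nat.ble 15 k then
     (rw159 (Nat.land t 15))
    else
     (rw158 (Nat.land t 15)))
   else
    (bif Nat.ble 13 k then
     (rw157 (Nat.land t 15))
    else
     (rw156 (Nat.land t 15))))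
  else
   (bif Nat.ble 10 k then
    (bif Nat.ble 11 k then
     (rw155 (Nat.land t 15))
    else
     (rw154 (Nat.land t 15)))
   else
    (bif Nat.ble 9 k then
     (rw153 (Nat.land t 15))
    else
     (rw152 (Nat.land t 15)))))
 else
  (bif Nat.ble 4 k then
   (bif Nat.ble 6 k then
    (bif Nat.ble 7 k then
     (rw151 (Nat.land t 15))
    else
     (rw150 (Nat.land t 15)))
   else
    (bif Nat.ble 5 k then
     (rw149 (Nat.land t 15))
    else
     (rw148 (Nat.land t 15))))
  else
   (bif Nat.ble 2 k then
    (bif Nat.ble 3 k then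
     (rw147 (Nat.land t 15))
    else
     (rw146 (Nat.land t 15)))
   else
    (bif Nat.ble 1 k then
     (rw145 (Nat.land t 15))
    else
     (rw144 (Nat.land t 15)))))

/-- pieces of the types `2560 ..` -/
noncomputable def rq10 (k t : ℕ) : List ℕ :=
 bif Nat.ble 8 k then
  (bif Nat.ble 12 k then
   (bif Nat.ble 14 k then
    (bif Nat.ble 15 k then
     (rw175 (Nat.land t 15))
    else
     (rw174 (Nat.land t 15)))
   else
    (bif Nat.ble 13 k then
     (rw173 (Nat.land t 15))
    else
     (rw172 (Nat.land t 15))))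
  else
   (bif Nat.ble 10 k then
    (bif Nat.ble 11 k then
     (rw171 (Nat.land t 15))
    else
     (rw170 (Nat.land t 15)))
   else
    (bif Nat.ble 9 k then
     (rw169 (Nat.land t 15))
    else
     (rw168 (Nat.land t 15)))))
 else
  (bif Nat.ble 4 k then
   (bif Nat.ble 6 k then
    (bif Nat.ble 7 k then
     (rw167 (Nat.land t 15))
    else
     (rw166 (Nat.land t 15)))
   else
    (bif Nat.ble 5 k then
     (rw165 (Nat.land t 15))
    else
     (rw164 (Nat.land t 15))))
  else
   (bif Nat.ble 2 k then
    (bif Nat.ble 3 k then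
     (rw163 (Nat.land t 15))
    else
     (rw162 (Nat.land t 15)))
   else
    (bif Nat.ble 1 k then
     (rw161 (Nat.land t 15))
    else
     (rw160 (Nat.land t 15)))))

/-- pieces of the types `2816 ..` -/
noncomputable def rq11 (k t : ℕ) : List ℕ :=
 bif Nat.ble 8 k then
  (bif Nat.ble 12 k then
   (bif Nat.ble 14 k then
    (bif Nat.ble 15 k then
     (rw191 (Nat.land t 15))
    else
     (rw190 (Nat.land t 15)))
   else
    (bif Nat.ble 13 k then
     (rw189 (Nat.land t 15))
    else
     (rw188 (Nat.land t 15))))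
  else
   (bif Nat.ble 10 k then
    (bif Nat.ble 11 k then
     (rw187 (Nat.land t 15))
    else
     (rw186 (Nat.land t 15)))
   else
    (bif Nat.ble 9 k then
     (rw185 (Nat.land t 15))
    else
     (rw184 (Nat.land t 15)))))
 else
  (bif Nat.ble 4 k then
   (bif Nat.ble 6 k then
    (bif Nat.ble 7 k then
     (rw183 (Nat.land t 15))
    else
     (rw182 (Nat.land t 15)))
   else
    (bif Nat.ble 5 k then
     (rw181 (Nat.land t 15))
    else
     (rw180 (Nat.land t 15))))
  else
   (bif Nat.ble 2 k then
    (bif Nat.ble 3 k then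
     (rw179 (Nat.land t 15))
    else
     (rw178 (Nat.land t 15)))
   else
    (bif Nat.ble 1 k then
     (rw177 (Nat.land t 15))
    else
     (rw176 (Nat.land t 15)))))

/-- pieces of the types `3072 ..` -/
noncomputable def rq12 (k t : ℕ) : List ℕ :=
 bif Nat.ble 8 k then
  (bif Nat.ble 12 k then
   (bif Nat.ble 14 k then
    (bif Nat.ble 15 k then
     (rw207 (Nat.land t 15))
    else
     (rw206 (Nat.land t 15)))
   else
    (bif Nat.ble 13 k then
     (rw205 (Nat.land t 15))
    else
     (rw204 (Nat.land t 15))))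
  else
   (bif Nat.ble 10 k then
    (bif Nat.ble 11 k then
     (rw203 (Nat.land t 15))
    else
     (rw202 (Nat.land t 15)))
   else
    (bif Nat.ble 9 k then
     (rw201 (Nat.land t 15))
    else
     (rw200 (Nat.land t 15)))))
 else
  (bif Nat.ble 4 k then
   (bif Nat.ble 6 k then
    (bif Nat.ble 7 k then
     (rw199 (Nat.land t 15))
    else
     (rw198 (Nat.land t 15)))
   else
    (bif Nat.ble 5 k then
     (rw197 (Nat.land t 15))
    else
     (rw196 (Nat.land t 15))))
  else
   (bif Nat.ble 2 k then
    (bif Nat.ble 3 k then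
     (rw195 (Nat.land t 15))
    else
     (rw194 (Nat.land t 15)))
   else
    (bif Nat.ble 1 k then
     (rw193 (Nat.land t 15))
    else
     (rw192 (Nat.land t 15)))))

/-- pieces of the types `3328 ..` -/
noncomputable def rq13 (k t : ℕ) : List ℕ :=
 bif Nat.ble 8 k then
  (bif Nat.ble 12 k then
   (bif Nat.ble 14 k then
    (bif Nat.ble 15 k then
     (rw223 (Nat.land t 15))
    else
     (rw222 (Nat.land t 15)))
   else
    (bif Nat.ble 13 k then
     (rw221 (Nat.land t 15))
    else
     (rw220 (Nat.land t 15))))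
  else
   (bif Nat.ble 10 k then
    (bif Nat.ble 11 k then
     (rw219 (Nat.land t 15))
    else
     (rw218 (Nat.land t 15)))
   else
    (bif Nat.ble 9 k then
     (rw217 (Nat.land t 15))
    else
     (rw216 (Nat.land t 15)))))
 else
  (bif Nat.ble 4 k then
   (bif Nat.ble 6 k then
    (bif Nat.ble 7 k then
     (rw215 (Nat.land t 15))
    else
     (rw214 (Nat.land t 15)))
   else
    (bif Nat.ble 5 k then
     (rw213 (Nat.land t 15))
    else
     (rw212 (Nat.land t 15))))
  else
   (bif Nat.ble 2 k then
    (bif Nat.ble 3 k then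
     (rw211 (Nat.land t 15))
    else
     (rw210 (Nat.land t 15)))
   else
    (bif Nat.ble 1 k then
     (rw209 (Nat.land t 15))
    else
     (rw208 (Nat.land t 15)))))

/-- pieces of the types `3584 ..` -/
noncomputable def rq14 (k t : ℕ) : List ℕ :=
 bif Nat.ble 8 k then
  (bif Nat.ble 12 k then
   (bif Nat.ble 14 k then
    (bif Nat.ble 15 k then
     (rw239 (Nat.land t 15))
    else
     (rw238 (Nat.land t 15)))
   else
    (bif Nat.ble 13 k then
     (rw237 (Nat.land t 15))
    else
     (rw236 (Nat.land t 15))))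
  else
   (bif Nat.ble 10 k then
    (bif Nat.ble 11 k then
     (rw235 (Nat.land t 15))
    else
     (rw234 (Nat.land t 15)))
   else
    (bif Nat.ble 9 k then
     (rw233 (Nat.land t 15))
    else
     (rw232 (Nat.land t 15)))))
 else
  (bif Nat.ble 4 k then
   (bif Nat.ble 6 k then
    (bif Nat.ble 7 k then
     (rw231 (Nat.land t 15))
    else
     (rw230 (Nat.land t 15)))
   else
    (bif Nat.ble 5 k then
     (rw229 (Nat.land t 15))
    else
     (rw228 (Nat.land t 15))))
  else
   (bif Nat.ble 2 k then
    (bif Nat.ble 3 k then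
     (rw227 (Nat.land t 15))
    else
     (rw226 (Nat.land t 15)))
   else
    (bif Nat.ble 1 k then
     (rw225 (Nat.land t 15))
    else
     (rw224 (Nat.land t 15)))))

/-- pieces of the types `3840 ..` -/
noncomputable def rq15 (k t : ℕ) : List ℕ :=
 bif Nat.ble 8 k then
  (bif Nat.ble 12 k then
   (bif Nat.ble 14 k then
    (bif Nat.ble 15 k then
     (rw255 (Nat.land t 15))
    else
     (rw254 (Nat.land t 15)))
   else
    (bif Nat.ble 13 k then
     (rw253 (Nat.land t 15))
    else
     (rw252 (Nat.land t 15))))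
  else
   (bif Nat.ble 10 k then
    (bif Nat.ble 11 k then
     (rw251 (Nat.land t 15))
    else
     (rw250 (Nat.land t 15)))
   else
    (bif Nat.ble 9 k then
     (rw249 (Nat.land t 15))
    else
     (rw248 (Nat.land t 15)))))
 else
  (bif Nat.ble 4 k then
   (bif Nat.ble 6 k then
    (bif Nat.ble 7 k then
     (rw247 (Nat.land t 15))
    else
     (rw246 (Nat.land t 15)))
   else
    (bif Nat.ble 5 k then
     (rw245 (Nat.land t 15))
    else
     (rw244 (Nat.land t 15))))
  else
   (bif Nat.ble 2 k then
    (bif Nat.ble 3 k then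
     (rw243 (Nat.land t 15))
    else
     (rw242 (Nat.land t 15)))
   else
    (bif Nat.ble 1 k then
     (rw241 (Nat.land t 15))
    else
     (rw240 (Nat.land t 15)))))

/-- pieces of the types `4096 ..` -/
noncomputable def rq16 (k t : ℕ) : List ℕ :=
 bif Nat.ble 8 k then
  (bif Nat.ble 12 k then
   (bif Nat.ble 14 k then
    (bif Nat.ble 15 k then
     (rw271 (Nat.land t 15))
    else
     (rw270 (Nat.land t 15)))
   else
    (bif Nat.ble 13 k then
     (rw269 (Nat.land t 15))
    else
     (rw268 (Nat.land t 15))))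
  else
   (bif Nat.ble 10 k then
    (bif Nat.ble 11 k then
     (rw267 (Nat.land t 15))
    else
     (rw266 (Nat.land t 15)))
   else
    (bif Nat.ble 9 k then
     (rw265 (Nat.land t 15))
    else
     (rw264 (Nat.land t 15)))))
 else
  (bif Nat.ble 4 k then
   (bif Nat.ble 6 k then
    (bif Nat.ble 7 k then
     (rw263 (Nat.land t 15))
    else
     (rw262 (Nat.land t 15)))
   else
    (bif Nat.ble 5 k then
     (rw261 (Nat.land t 15))
    else
     (rw260 (Nat.land t 15))))
  else
   (bif Nat.ble 2 k then
    (bif Nat.ble 3 k then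
     (rw259 (Nat.land t 15))
    else
     (rw258 (Nat.land t 15)))
   else
    (bif Nat.ble 1 k then
     (rw257 (Nat.land t 15))
    else
     (rw256 (Nat.land t 15)))))

/-- pieces of the types `4352 ..` -/
noncomputable def rq17 (k t : ℕ) : List ℕ :=
 bif Nat.ble 8 k then
  (bif Nat.ble 12 k then
   (bif Nat.ble 14 k then
    (bif Nat.ble 15 k then
     (rw287 (Nat.land t 15))
    else
     (rw286 (Nat.land t 15)))
   else
    (bif Nat.ble 13 k then
     (rw285 (Nat.land t 15))
    else
     (rw284 (Nat.land t 15))))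
  else
   (bif Nat.ble 10 k then
    (bif Nat.ble 11 k then
     (rw283 (Nat.land t 15))
    else
     (rw282 (Nat.land t 15)))
   else
    (bif Nat.ble 9 k then
     (rw281 (Nat.land t 15))
    else
     (rw280 (Nat.land t 15)))))
 else
  (bif Nat.ble 4 k then
   (bif Nat.ble 6 k then
    (bif Nat.ble 7 k then
     (rw279 (Nat.land t 15))
    else
     (rw278 (Nat.land t 15)))
   else
    (bif Nat.ble 5 k then
     (rw277 (Nat.land t 15))
    else
     (rw276 (Nat.land t 15))))
  else
   (bif Nat.ble 2 k then
    (bif Nat.ble 3 k then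
     (rw275 (Nat.land t 15))
    else
     (rw274 (Nat.land t 15)))
   else
    (bif Nat.ble 1 k then
     (rw273 (Nat.land t 15))
    else
     (rw272 (Nat.land t 15)))))

/-- pieces of the types `4608 ..` -/
noncomputable def rq18 (k t : ℕ) : List ℕ :=
 bif Nat.ble 8 k then
  (bif Nat.ble 12 k then
   (bif Nat.ble 14 k then
    (bif Nat.ble 15 k then
     (rw303 (Nat.land t 15))
    else
     (rw302 (Nat.land t 15)))
   else
    (bif Nat.ble 13 k then
     (rw301 (Nat.land t 15))
    else
     (rw300 (Nat.land t 15))))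
  else
   (bif Nat.ble 10 k then
    (bif Nat.ble 11 k then
     (rw299 (Nat.land t 15))
    else
     (rw298 (Nat.land t 15)))
   else
    (bif Nat.ble 9 k then
     (rw297 (Nat.land t 15))
    else
     (rw296 (Nat.land t 15)))))
 else
  (bif Nat.ble 4 k then
   (bif Nat.ble 6 k then
    (bif Nat.ble 7 k then
     (rw295 (Nat.land t 15))
    else
     (rw294 (Nat.land t 15)))
   else
    (bif Nat.ble 5 k then
     (rw293 (Nat.land t 15))
    else
     (rw292 (Nat.land t 15))))
  else
   (bif Nat.ble 2 k then
    (bif Nat.ble 3 k then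
     (rw291 (Nat.land t 15))
    else
     (rw290 (Nat.land t 15)))
   else
    (bif Nat.ble 1 k then
     (rw289 (Nat.land t 15))
    else
     (rw288 (Nat.land t 15)))))

/-- pieces of the types `4864 ..` -/
noncomputable def rq19 (k t : ℕ) : List ℕ :=
 bif Nat.ble 8 k then
  (bif Nat.ble 12 k then
   (bif Nat.ble 14 k then
    (bif Nat.ble 15 k then
     ([])
    else
     ([]))
   else
    (bif Nat.ble 13 k then
     (rw317 (Nat.land t 15))
    else
     (rw316 (Nat.land t 15))))
  else
   (bif Nat.ble 10 k then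
    (bif Nat.ble 11 k then
     (rw315 (Nat.land t 15))
    else
     (rw314 (Nat.land t 15)))
   else
    (bif Nat.ble 9 k then
     (rw313 (Nat.land t 15))
    else
     (rw312 (Nat.land t 15)))))
 else
  (bif Nat.ble 4 k then
   (bif Nat.ble 6 k then
    (bif Nat.ble 7 k then
     (rw311 (Nat.land t 15))
    else
     (rw310 (Nat.land t 15)))
   else
    (bif Nat.ble 5 k then
     (rw309 (Nat.land t 15))
    else
     (rw308 (Nat.land t 15))))
  else
   (bif Nat.ble 2 k then
    (bif Nat.ble 3 k then
     (rw307 (Nat.land t 15))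
    else
     (rw306 (Nat.land t 15)))
   else
    (bif Nat.ble 1 k then
     (rw305 (Nat.land t 15))
    else
     (rw304 (Nat.land t 15)))))

/-- pieces of the row of the type `t` -/
noncomputable def rowP (t : ℕ) : List ℕ :=
 bif Nat.ble 10 (Nat.shiftRight t 8) then
  (bif Nat.ble 15 (Nat.shiftRight t 8) then
   (bif Nat.ble 17 (Nat.shiftRight t 8) then
    (bif Nat.ble 18 (Nat.shiftRight t 8) then
     (bif Nat.ble 19 (Nat.shiftRight t 8) then
      (rq19 (Nat.land (Nat.shiftRight t 4) 15) t)
     else
      (rq18 (Nat.land (Nat.shiftRight t 4) 15) t))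
    else
     (rq17 (Nat.land (Nat.shiftRight t 4) 15) t))
   else
    (bif Nat.ble 16 (Nat.shiftRight t 8) then
     (rq16 (Nat.land (Nat.shiftRight t 4) 15) t)
    else
     (rq15 (Nat.land (Nat.shiftRight t 4) 15) t)))
  else
   (bif Nat.ble 12 (Nat.shiftRight t 8) then
    (bif Nat.ble 13 (Nat.shiftRight t 8) then
     (bif Nat.ble 14 (Nat.shiftRight t 8) then
      (rq14 (Nat.land (Nat.shiftRight t 4) 15) t)
     else
      (rq13 (Nat.land (Nat.shiftRight t 4) 15) t))
    else
     (rq12 (Nat.land (Nat.shiftRight t 4) 15) t))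
   else
    (bif Nat.ble 11 (Nat.shiftRight t 8) then
     (rq11 (Nat.land (Nat.shiftRight t 4) 15) t)
    else
     (rq10 (Nat.land (Nat.shiftRight t 4) 15) t))))
 else
  (bif Nat.ble 5 (Nat.shiftRight t 8) then
   (bif Nat.ble 7 (Nat.shiftRight t 8) then
    (bif Nat.ble 8 (Nat.shiftRight t 8) then
     (bif Nat.ble 9 (Nat.shiftRight t 8) then
      (rq9 (Nat.land (Nat.shiftRight t 4) 15) t)
     else
      (rq8 (Nat.land (Nat.shiftRight t 4) 15) t))
    else
     (rq7 (Nat.land (Nat.shiftRight t 4) 15) t))
   else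
    (bif Nat.ble 6 (Nat.shiftRight t 8) then
     (rq6 (Nat.land (Nat.shiftRight t 4) 15) t)
    else
     (rq5 (Nat.land (Nat.shiftRight t 4) 15) t)))
  else
   (bif Nat.ble 2 (Nat.shiftRight t 8) then
    (bif Nat.ble 3 (Nat.shiftRight t 8) then
     (bif Nat.ble 4 (Nat.shiftRight t 8) then
      (rq4 (Nat.land (Nat.shiftRight t 4) 15) t)
     else
      (rq3 (Nat.land (Nat.shiftRight t 4) 15) t))
    else
     (rq2 (Nat.land (Nat.shiftRight t 4) 15) t))
   else
    (bif Nat.ble 1 (Nat.shiftRight t 8) then
     (rq1 (Nat.land (Nat.shiftRight t 4) 15) t)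
    else
     (rq0 (Nat.land (Nat.shiftRight t 4) 15) t))))

/-- the row of the type `t` -/
noncomputable def row (t : ℕ) : ℕ := packL 15840 (rowP t)

/-- one lane of the row of the type `t` -/
noncomputable def lane (t i : ℕ) : ℕ :=
  force t fun t => force (packL 15840 (rowP t)) fun X =>
    Nat.land (Nat.shiftRight X (Nat.mul 330 i))
      0x3ffffffffffffffffffffffffffffffffffffffffffffffffffffffffffffffffffffffffffffffffff

theorem lane_eq (t i : ℕ) : lane t i = fld 330 (row t) i := by
  unfold lane
  rw [force_eq, force_eq]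
  have h : (0x3ffffffffffffffffffffffffffffffffffffffffffffffffffffffffffffffffffffffffffffffffff : ℕ) = 2 ^ 330 - 1 := by decide +kernel
  rw [h]
  show (packL 15840 (rowP t) >>> (330 * i)) &&& (2 ^ 330 - 1) = _
  rw [Nat.and_two_pow_sub_one_eq_mod, Nat.shiftRight_eq_div_pow]
  rfl

theorem lane_lt (t i : ℕ) : lane t i < 2 ^ 330 := by
  rw [lane_eq]
  exact fld_lt

end Pool.Agent.Helper7.TB
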