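import Pool.Agent.Helper7.TB.Acc
import Pool.Agent.Helper7.TB.Cls

/-!
MP_8ee768_co, project TH-Y', stage TB2: the pieces of the rows have the right size.
-/

set_option autoImplicit false
set_option maxRecDepth 100000

namespace Pool.Agent.Helper7.TB

open Pool.Agent.Helper63.SIMD
open Pool.Agent.Helper16.TY (packL)

/-- the pieces of the row of the type `t` have `15840` bits and hold at least `nl t` lanes -/
noncomputable def rowOK (t : ℕ) : Bool :=
  Nat.ble (nl t) (Nat.mul 48 (rowP t).length) &&
    (rowP t).all fun a => Nat.beq (Nat.shiftRight a 15840) 0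

theorem rowOK_all : allR 5074 rowOK = true := by decide +kernel

theorem rowP_lt {t : ℕ} (ht : t < 5074) : ∀ a ∈ rowP t, a < 2 ^ 15840 := by
  have h := allR_spec rowOK_all t ht
  unfold rowOK at h
  rw [Bool.and_eq_true, List.all_eq_true] at h
  intro a ha
  have h1 := Nat.eq_of_beq_eq_true (h.2 a ha)
  have h2 : a >>> 15840 = 0 := h1
  rw [Nat.shiftRight_eq_div_pow] at h2
  exact (Nat.div_eq_zero_iff_lt (Nat.two_pow_pos 15840)).1 h2

theorem nl_le {t : ℕ} (ht : t < 5074) : nl t ≤ 48 * (rowP t).length := by
  have h := allR_spec rowOK_all t ht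
  unfold rowOK at h
  rw [Bool.and_eq_true] at h
  exact Nat.le_of_ble_eq_true h.1

/-- the two forms of a lane -/
theorem laneF_fld {t i : ℕ} (ht : t < 5074) (hi : i < nl t) : laneF t i = fld 330 (row t) i := by
  rw [laneF_eq]
  exact laneL_packL (rowP_lt ht) (lt_of_lt_of_le hi (nl_le ht))

/-- the class numbers of the row of the type `t` are nondecreasing -/
noncomputable def monOK (t : ℕ) : Bool :=
  allR (Nat.pred (nl t)) fun i => Nat.ble (cls t i) (cls t (Nat.succ i))

theorem monOK_all : allR 5074 monOK = true := by decide +kernel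

/-- **the lanes are sorted by class number** -/
theorem cls_mono {t i i' : ℕ} (ht : t < 5074) (h : i ≤ i') (hi' : i' < nl t) :
    cls t i ≤ cls t i' := by
  have h0 := allR_spec monOK_all t ht
  unfold monOK at h0
  have h1 : ∀ k, k < nl t - 1 → cls t k ≤ cls t (k + 1) := fun k hk =>
    Nat.le_of_ble_eq_true (allR_spec h0 k hk)
  induction i' with
  | zero =>
    have h2 : i = 0 := by omega
    rw [h2]
  | succ k ih =>
    rcases Nat.lt_or_ge i (k + 1) with h2 | h2
    · exact le_trans (ih (by omega) (by omega)) (h1 k (by omega))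
    · have h3 : i = k + 1 := by omega
      rw [h3]

/-- lanes before a lane of smaller class have a smaller class -/
theorem cls_lt_of_lt {t i i' j : ℕ} (ht : t < 5074) (h : i ≤ i') (hi' : i' < nl t)
    (hj : cls t i' < j) : cls t i < j :=
  lt_of_le_of_lt (cls_mono ht h hi') hj

end Pool.Agent.Helper7.TB
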