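import Pool.Agent.Helper7.TB.Rows

/-!
MP_8ee768_co, project TH-Y', stage TB2: access to one lane through the pieces of the row.
-/

set_option autoImplicit false
set_option maxRecDepth 100000

namespace Pool.Agent.Helper7.TB

open Pool.Agent.Helper63.SIMD
open Pool.Agent.Helper82.TY (force force_eq)
open Pool.Agent.Helper16.TY (packL fld_packL)

/-- all `k < n` -/
def allR (n : ℕ) (f : ℕ → Bool) : Bool :=
  Nat.rec (motive := fun _ => Bool) true (fun k ih => f k && ih) n

theorem allR_spec {n : ℕ} {f : ℕ → Bool} (h : allR n f = true) : ∀ k < n, f k = true := by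
  induction n with
  | zero => exact fun k hk => absurd hk (by omega)
  | succ n ih =>
    have h1 : (f n && allR n f) = true := h
    rw [Bool.and_eq_true] at h1
    intro k hk
    rcases Nat.lt_succ_iff_lt_or_eq.1 hk with h2 | h2
    · exact ih h1.2 k h2
    · rw [h2]
      exact h1.1

/-- tail -/
def tl (l : List ℕ) : List ℕ := List.rec (motive := fun _ => List ℕ) [] (fun _ l _ => l) l

/-- head -/
def hd (l : List ℕ) : ℕ := List.rec (motive := fun _ => ℕ) 0 (fun a _ _ => a) l

/-- element `k` of a list (the list is walked, `k` is forced) -/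
def getP (k : ℕ) : List ℕ → ℕ :=
  Nat.rec (motive := fun _ => List ℕ → ℕ) hd (fun _ ih l => ih (tl l)) k

theorem getP_eq (k : ℕ) (l : List ℕ) : getP k l = l.getD k 0 := by
  induction k generalizing l with
  | zero => cases l <;> rfl
  | succ k ih =>
    show getP k (tl l) = _
    rw [ih]
    cases l <;> rfl

/-- lane `i` of a list of pieces of 48 lanes -/
def laneL (ps : List ℕ) (i : ℕ) : ℕ :=
  force i fun i => force (getP (Nat.div i 48) ps) fun X =>
    Nat.land (Nat.shiftRight X (Nat.mul 330 (Nat.mod i 48)))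
      0x3ffffffffffffffffffffffffffffffffffffffffffffffffffffffffffffffffffffffffffffffffff

theorem laneL_eq (ps : List ℕ) (i : ℕ) : laneL ps i = fld 330 (ps.getD (i / 48) 0) (i % 48) := by
  unfold laneL
  rw [force_eq, force_eq, getP_eq]
  have h : (0x3ffffffffffffffffffffffffffffffffffffffffffffffffffffffffffffffffffffffffffffffffff : ℕ) = 2 ^ 330 - 1 := by decide +kernel
  rw [h]
  show (ps.getD (i / 48) 0 >>> (330 * (i % 48))) &&& (2 ^ 330 - 1) = _
  rw [Nat.and_two_pow_sub_one_eq_mod, Nat.shiftRight_eq_div_pow]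
  rfl

theorem laneL_lt (ps : List ℕ) (i : ℕ) : laneL ps i < 2 ^ 330 := by
  rw [laneL_eq]
  exact fld_lt

theorem fld_fld {W K X k r : ℕ} (hr : r < K) :
    fld W (fld (W * K) X k) r = fld W X (K * k + r) := by
  unfold fld
  have e1 : 2 ^ (W * K) = 2 ^ (W * r) * 2 ^ (W * (K - r)) := by
    rw [← pow_add, ← Nat.mul_add]
    congr 2
    omega
  rw [e1, Nat.mod_mul_right_div_self, Nat.div_div_eq_div_mul, ← pow_add]
  have e2 : W * K * k + W * r = W * (K * k + r) := by ring
  rw [e2]
  refine Nat.mod_mod_of_dvd _ (pow_dvd_pow 2 ?_)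
  calc W = W * 1 := (mul_one W).symm
    _ ≤ W * (K - r) := Nat.mul_le_mul_left _ (by omega)

/-- a lane of the packed number is a lane of a piece -/
theorem laneL_packL {ps : List ℕ} (h : ∀ a ∈ ps, a < 2 ^ 15840) {i : ℕ}
    (hi : i < 48 * ps.length) : laneL ps i = fld 330 (packL 15840 ps) i := by
  have h1 : i / 48 < ps.length := by omega
  rw [laneL_eq]
  have h2 : ps.getD (i / 48) 0 = ps[i / 48] := by
    rw [List.getD_eq_getElem?_getD, List.getElem?_eq_getElem h1]
    rfl
  rw [h2, ← fld_packL h h1]
  have h3 := fld_fld (W := 330) (K := 48) (X := packL 15840 ps) (k := i / 48) (r := i % 48)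
    (Nat.mod_lt _ (by norm_num))
  rw [h3]
  congr 1
  omega

/-- the type, with a forced argument -/
noncomputable def typF (t : ℕ) : ℕ := force t typ

/-- the number of lanes, with a forced argument -/
noncomputable def nlF (t : ℕ) : ℕ := force t nl

/-- a lane of the row of the type `t` -/
noncomputable def laneF (t i : ℕ) : ℕ := force t fun t => laneL (rowP t) i

theorem typF_eq (t : ℕ) : typF t = typ t := force_eq _ _

theorem nlF_eq (t : ℕ) : nlF t = nl t := force_eq _ _

theorem laneF_eq (t i : ℕ) : laneF t i = laneL (rowP t) i := force_eq _ _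

theorem laneF_lt (t i : ℕ) : laneF t i < 2 ^ 330 := by
  rw [laneF_eq]
  exact laneL_lt _ _

end Pool.Agent.Helper7.TB
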